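import Mathlib

/-!
# Search games on networks: definitions

A network is a finite connected multigraph whose arcs are segments of given positive lengths,
viewed as a metric space with the shortest-path distance.
-/

set_option autoImplicit false

open scoped NNReal ENNReal
open MeasureTheory

namespace Pool.Agent.H64.NetSearch

/-- Combinatorial data of a network. The arc `e` is a segment `[0, len e]` of positive length;
its end `0` is the node `src e` and its end `len e` is the node `tgt e`. Loops and parallel arcs
are allowed. There are finitely many nodes and arcs, at least one node, and the graph is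
connected: any two nodes are related by the equivalence relation generated by
`being the two ends of a common arc`. -/
structure Network where
  /-- nodes -/
  Node : Type
  /-- arcs -/
  Arc : Type
  finite_node : Finite Node
  finite_arc : Finite Arc
  nonempty_node : Nonempty Node
  /-- the node at coordinate `0` of an arc -/
  src : Arc → Node
  /-- the node at coordinate `len e` of the arc `e` -/
  tgt : Arc → Node
  /-- length of an arc -/
  len : Arc → ℝ
  len_pos : ∀ e, 0 < len e
  connected : ∀ u v : Node, Relation.EqvGen (fun a b => ∃ e, src e = a ∧ tgt e = b) u v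

namespace Network

variable (N : Network)

/-- Coordinates on the arc `e`: the real numbers in `[0, len e]`. -/
abbrev Coord (e : N.Arc) : Type := Set.Icc (0 : ℝ) (N.len e)

/-- The coordinate `0` of the arc `e`. -/
def first (e : N.Arc) : N.Coord e := ⟨0, le_rfl, (N.len_pos e).le⟩

/-- The coordinate `len e` of the arc `e`. -/
def last (e : N.Arc) : N.Coord e := ⟨N.len e, (N.len_pos e).le, le_rfl⟩

/-- Points of the network before glueing: the nodes, and the points of every arc. -/
inductive Raw : Type
  | node (v : N.Node) : Raw
  | pt (e : N.Arc) (x : N.Coord e) : Raw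

/-- `N.Joined p q L` says that some path in the network leads from `p` to `q` and has total
length `L`. Paths are made of pieces of arcs (the piece of an arc between the coordinates `x`
and `y` has length `|x - y|`), and the ends of an arc coincide with (are at distance `0` from)
the corresponding nodes. -/
inductive Joined : N.Raw → N.Raw → ℝ → Prop
  | refl (p : N.Raw) : Joined p p 0
  | along (e : N.Arc) (x y : N.Coord e) : Joined (.pt e x) (.pt e y) |(x : ℝ) - y|
  | src (e : N.Arc) : Joined (.node (N.src e)) (.pt e (N.first e)) 0
  | tgt (e : N.Arc) : Joined (.node (N.tgt e)) (.pt e (N.last e)) 0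
  | symm {p q : N.Raw} {a : ℝ} : Joined p q a → Joined q p a
  | trans {p q r : N.Raw} {a b : ℝ} : Joined p q a → Joined q r b → Joined p r (a + b)

variable {N}

theorem Joined.nonneg {p q : N.Raw} {a : ℝ} (h : N.Joined p q a) : 0 ≤ a := by
  induction h with
  | refl p => exact le_rfl
  | along e x y => exact abs_nonneg _
  | src e => exact le_rfl
  | tgt e => exact le_rfl
  | symm _ ih => exact ih
  | trans _ _ ih1 ih2 => exact add_nonneg ih1 ih2

theorem exists_joined_node (u v : N.Node) : ∃ a, N.Joined (.node u) (.node v) a := by
  have h := N.connected u v
  induction h with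
  | rel u v h =>
    obtain ⟨e, rfl, rfl⟩ := h
    exact ⟨_, ((Joined.src e).trans (Joined.along e _ _)).trans (Joined.tgt e).symm⟩
  | refl u => exact ⟨0, Joined.refl _⟩
  | symm u v _ ih => obtain ⟨a, h⟩ := ih; exact ⟨a, h.symm⟩
  | trans u v w _ _ ih1 ih2 =>
    obtain ⟨a, h⟩ := ih1
    obtain ⟨b, h'⟩ := ih2
    exact ⟨_, h.trans h'⟩

theorem exists_joined_to_node (p : N.Raw) : ∃ v a, N.Joined p (.node v) a := by
  cases p with
  | node v => exact ⟨v, 0, Joined.refl _⟩
  | pt e x => exact ⟨N.src e, _, (Joined.along e x (N.first e)).trans (Joined.src e).symm⟩

theorem exists_joined (p q : N.Raw) : ∃ a, N.Joined p q a := by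
  obtain ⟨u, a, h⟩ := exists_joined_to_node p
  obtain ⟨v, b, h'⟩ := exists_joined_to_node q
  obtain ⟨c, h''⟩ := exists_joined_node u v
  exact ⟨_, (h.trans h'').trans h'.symm⟩

variable (N)

/-- The shortest-path distance between two points. -/
noncomputable def pathDist (p q : N.Raw) : ℝ := sInf {a | N.Joined p q a}

variable {N}

theorem bddBelow_joined (p q : N.Raw) : BddBelow {a | N.Joined p q a} :=
  ⟨0, fun _ h => h.nonneg⟩

theorem Joined.pathDist_le {p q : N.Raw} {a : ℝ} (h : N.Joined p q a) : N.pathDist p q ≤ a :=
  csInf_le (bddBelow_joined p q) h

theorem le_pathDist {p q : N.Raw} {c : ℝ} (h : ∀ a, N.Joined p q a → c ≤ a) :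
    c ≤ N.pathDist p q :=
  le_csInf (exists_joined p q) h

theorem pathDist_self (p : N.Raw) : N.pathDist p p = 0 :=
  le_antisymm (Joined.refl p).pathDist_le (le_pathDist fun _ h => h.nonneg)

theorem pathDist_comm (p q : N.Raw) : N.pathDist p q = N.pathDist q p := by
  have : {a | N.Joined p q a} = {a | N.Joined q p a} := by
    ext a; exact ⟨Joined.symm, Joined.symm⟩
  unfold pathDist; rw [this]

theorem pathDist_triangle (p q r : N.Raw) :
    N.pathDist p r ≤ N.pathDist p q + N.pathDist q r := by
  have h1 : ∀ a, N.Joined p q a → N.pathDist p r - a ≤ N.pathDist q r := by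
    intro a ha
    refine le_pathDist fun b hb => ?_
    have := (ha.trans hb).pathDist_le
    linarith
  have h2 : N.pathDist p r - N.pathDist q r ≤ N.pathDist p q :=
    le_pathDist fun a ha => by have := h1 a ha; linarith
  linarith

noncomputable instance : PseudoMetricSpace N.Raw where
  dist := N.pathDist
  dist_self := pathDist_self
  dist_comm := pathDist_comm
  dist_triangle := pathDist_triangle

theorem raw_dist_def (p q : N.Raw) : dist p q = N.pathDist p q := rfl

variable (N)

/-- The network as a metric space: points at shortest-path distance `0` are identified, that is,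
the ends of the arcs are glued to the nodes. -/
abbrev Point : Type := SeparationQuotient N.Raw

variable {N}

/-- The point of the network given by a node or by a point of an arc. -/
noncomputable def toPoint (p : N.Raw) : N.Point := SeparationQuotient.mk p

/-- The point of the arc `e` with coordinate `x`. -/
noncomputable def loc (e : N.Arc) (x : N.Coord e) : N.Point := toPoint (.pt e x)

/-- The point of the network given by a node. -/
noncomputable def nodePt (v : N.Node) : N.Point := toPoint (.node v)

end Network

variable {N : Network}

/-- Search trajectories: maps `[0, ∞) → Q` that start at `O` and have speed at most `1`. -/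
structure Trajectory (N : Network) (O : N.Point) where
  /-- position at time `t` -/
  pos : ℝ≥0 → N.Point
  pos_zero : pos 0 = O
  dist_pos_le : ∀ t t' : ℝ≥0, dist (pos t) (pos t') ≤ |(t : ℝ) - (t' : ℝ)|

namespace Trajectory

variable {O : N.Point}

/-- The set of trajectories carries the topology of pointwise convergence (which for maps of speed
at most `1` is the same as uniform convergence on bounded time intervals) and its Borel
sigma-algebra. -/
noncomputable instance : TopologicalSpace (Trajectory N O) :=
  TopologicalSpace.induced Trajectory.pos inferInstance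

noncomputable instance : MeasurableSpace (Trajectory N O) := borel (Trajectory N O)

/-- The capture time `c(S, H)`: the first time at which `S` is at `H` (`∞` if there is none). -/
noncomputable def captureTime (S : Trajectory N O) (H : N.Point) : ℝ≥0∞ :=
  ⨅ (t : ℝ≥0) (_ : S.pos t = H), (t : ℝ≥0∞)

/-- During the time interval `[a, b]` the trajectory traverses the sub-segment of the arc `e`
between the coordinates `x ≤ y`: it stays in the sub-segment and goes from one of its ends to
the other. -/
def TraversesDuring (S : Trajectory N O) (e : N.Arc) (x y : N.Coord e) (a b : ℝ≥0) : Prop :=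
  (∀ t, a ≤ t → t ≤ b → ∃ z, x ≤ z ∧ z ≤ y ∧ S.pos t = Network.loc e z) ∧
  ((S.pos a = Network.loc e x ∧ S.pos b = Network.loc e y) ∨
    (S.pos a = Network.loc e y ∧ S.pos b = Network.loc e x))

/-- Before the time at which it has visited every point of the network, the trajectory traverses
some sub-segment of positive length of some arc at least three times. -/
def VisitsPartMoreThanTwice (S : Trajectory N O) : Prop :=
  ∃ (e : N.Arc) (x y : N.Coord e), x < y ∧
    ∃ a₁ b₁ a₂ b₂ a₃ b₃ : ℝ≥0, a₁ < b₁ ∧ b₁ ≤ a₂ ∧ a₂ < b₂ ∧ b₂ ≤ a₃ ∧ a₃ < b₃ ∧
      S.TraversesDuring e x y a₁ b₁ ∧ S.TraversesDuring e x y a₂ b₂ ∧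
      S.TraversesDuring e x y a₃ b₃ ∧
      ∃ H : N.Point, ∀ t ≤ b₃, S.pos t ≠ H

end Trajectory

/-- The expected capture time `c(s, H)` of the mixed search strategy `s` (a probability
distribution over trajectories) against a hider at the point `H`. -/
noncomputable def expectedCapture {O : N.Point} (s : ProbabilityMeasure (Trajectory N O))
    (H : N.Point) : ℝ≥0∞ :=
  ∫⁻ S, S.captureTime H ∂(s : Measure (Trajectory N O))

/-- The value `v` of the game: the least worst-case expected capture time. -/
noncomputable def value (N : Network) (O : N.Point) : ℝ≥0∞ :=
  ⨅ s : ProbabilityMeasure (Trajectory N O), ⨆ H : N.Point, expectedCapture s H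

/-- A mixed search strategy is optimal (minimax) if its worst-case expected capture time is the
value of the game. -/
def IsOptimal {O : N.Point} (s : ProbabilityMeasure (Trajectory N O)) : Prop :=
  ⨆ H : N.Point, expectedCapture s H = value N O

end Pool.Agent.H64.NetSearch
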