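import Pool.Agent.H64.NetSearch.Defs

/-!
# Existence of optimal search strategies on networks
-/

set_option autoImplicit false

open scoped NNReal ENNReal Topology
open MeasureTheory Filter

namespace Pool.Agent.H64.NetSearch

section Abstract

variable {E : Type*} [MeasurableSpace E] [TopologicalSpace E] [BorelSpace E]

theorem ennreal_eq_lintegral_lt (x : ℝ≥0∞) :
    x = ∫⁻ t in Set.Ioi (0 : ℝ), (if ENNReal.ofReal t < x then 1 else 0) := by
  rcases eq_or_ne x ⊤ with rfl | hx
  · simp
  · have h1 : ∀ t ∈ Set.Ioi (0 : ℝ), (if ENNReal.ofReal t < x then (1 : ℝ≥0∞) else 0) =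
        (Set.Ioo 0 x.toReal).indicator 1 t := by
      intro t ht
      have : ENNReal.ofReal t < x ↔ t < x.toReal := ENNReal.ofReal_lt_iff_lt_toReal (le_of_lt ht) hx
      by_cases h : t < x.toReal
      · rw [if_pos (this.2 h), Set.indicator_of_mem (Set.mem_Ioo.2 ⟨ht, h⟩)]; rfl
      · rw [if_neg (fun h' => h (this.1 h')), Set.indicator_of_notMem (fun h' => h h'.2)]
    rw [setLIntegral_congr_fun measurableSet_Ioi h1, lintegral_indicator measurableSet_Ioo]
    rw [Measure.restrict_restrict measurableSet_Ioo]
    have : Set.Ioo (0:ℝ) x.toReal ∩ Set.Ioi 0 = Set.Ioo (0:ℝ) x.toReal := by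
      ext t; simp; intro h _; exact h
    rw [this]
    simp [ENNReal.ofReal_toReal hx]

omit [TopologicalSpace E] [BorelSpace E] in
theorem lintegral_eq_layercake (μ : Measure E) [SFinite μ] {f : E → ℝ≥0∞} (hf : Measurable f) :
    ∫⁻ x, f x ∂μ = ∫⁻ t in Set.Ioi (0 : ℝ), μ {x | ENNReal.ofReal t < f x} := by
  have hm : MeasurableSet {p : E × ℝ | ENNReal.ofReal p.2 < f p.1} :=
    measurableSet_lt (ENNReal.measurable_ofReal.comp measurable_snd) (hf.comp measurable_fst)
  have hme : Measurable (fun p : E × ℝ => (if ENNReal.ofReal p.2 < f p.1 then (1 : ℝ≥0∞) else 0)) :=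
    Measurable.ite hm measurable_const measurable_const
  calc ∫⁻ x, f x ∂μ
      = ∫⁻ x, (∫⁻ t in Set.Ioi (0 : ℝ), (if ENNReal.ofReal t < f x then (1 : ℝ≥0∞) else 0)) ∂μ :=
        lintegral_congr fun x => ennreal_eq_lintegral_lt (f x)
    _ = ∫⁻ t in Set.Ioi (0 : ℝ), (∫⁻ x, (if ENNReal.ofReal t < f x then (1 : ℝ≥0∞) else 0) ∂μ) :=
        lintegral_lintegral_swap hme.aemeasurable
    _ = _ := by
        refine lintegral_congr fun t => ?_
        have hs : MeasurableSet {x | ENNReal.ofReal t < f x} := measurableSet_lt measurable_const hf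
        have : (fun x => (if ENNReal.ofReal t < f x then (1 : ℝ≥0∞) else 0)) =
            {x | ENNReal.ofReal t < f x}.indicator 1 := by
          ext x; simp [Set.indicator_apply]
        rw [this, lintegral_indicator_one hs]

theorem lintegral_le_liminf_of_lsc [HasOuterApproxClosed E] {μ : ProbabilityMeasure E}
    {μs : ℕ → ProbabilityMeasure E} (h : Tendsto μs atTop (𝓝 μ)) {f : E → ℝ≥0∞}
    (hf : LowerSemicontinuous f) :
    ∫⁻ x, f x ∂(μ : Measure E) ≤ liminf (fun n => ∫⁻ x, f x ∂(μs n : Measure E)) atTop := by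
  have hm : Measurable f := hf.measurable
  have hL : ∀ ν : ProbabilityMeasure E, ∫⁻ x, f x ∂(ν : Measure E) =
      ∫⁻ t in Set.Ioi (0 : ℝ), (ν : Measure E) {x | ENNReal.ofReal t < f x} :=
    fun ν => lintegral_eq_layercake _ hm
  simp_rw [hL]
  calc ∫⁻ t in Set.Ioi (0 : ℝ), (μ : Measure E) {x | ENNReal.ofReal t < f x}
      ≤ ∫⁻ t in Set.Ioi (0 : ℝ), liminf (fun n => (μs n : Measure E) {x | ENNReal.ofReal t < f x})
          atTop := by
        refine lintegral_mono fun t => ?_
        exact ProbabilityMeasure.le_liminf_measure_open_of_tendsto h (hf.isOpen_preimage _)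
    _ ≤ _ := by
        refine lintegral_liminf_le fun n => ?_
        refine Antitone.measurable fun s t hst => ?_
        exact measure_mono fun x hx => lt_of_le_of_lt (ENNReal.ofReal_le_ofReal hst) hx

/-- On a compact metrizable space, a supremum of expectations of lower semicontinuous functions
attains its minimum over the probability measures. -/
theorem exists_minimizer [Nonempty E] [CompactSpace E] [TopologicalSpace.MetrizableSpace E]
    {ι : Type*}
    (c : ι → E → ℝ≥0∞) (hc : ∀ i, LowerSemicontinuous (c i)) :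
    ∃ μ : ProbabilityMeasure E, (⨆ i, ∫⁻ x, c i x ∂(μ : Measure E)) =
      ⨅ ν : ProbabilityMeasure E, ⨆ i, ∫⁻ x, c i x ∂(ν : Measure E) := by
  let _ := TopologicalSpace.metrizableSpaceMetric E
  have _ : SecondCountableTopology E := inferInstance
  set F : ProbabilityMeasure E → ℝ≥0∞ := fun ν => ⨆ i, ∫⁻ x, c i x ∂(ν : Measure E) with hF
  have hne : (Set.range F).Nonempty := by
    obtain ⟨x⟩ := ‹Nonempty E›
    exact ⟨_, ⟨⟨Measure.dirac x, inferInstance⟩, rfl⟩⟩
  obtain ⟨u, -, hu, hmem⟩ := exists_seq_tendsto_sInf hne (OrderBot.bddBelow _)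
  choose μs hμs using hmem
  have _ : TopologicalSpace.MetrizableSpace (ProbabilityMeasure E) := inferInstance
  let _ := TopologicalSpace.metrizableSpaceMetric (ProbabilityMeasure E)
  obtain ⟨μ, φ, hφ, hμ⟩ := CompactSpace.tendsto_subseq μs
  refine ⟨μ, le_antisymm ?_ (iInf_le F μ)⟩
  refine iSup_le fun i => ?_
  refine (lintegral_le_liminf_of_lsc hμ (hc i)).trans ?_
  have h1 : Tendsto (fun n => F (μs (φ n))) atTop (𝓝 (⨅ ν, F ν)) := by
    have h2 := hu.comp hφ.tendsto_atTop
    have h3 : (fun n => F (μs (φ n))) = u ∘ φ := by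
      ext n; exact hμs (φ n)
    rw [h3]
    exact h2
  rw [← h1.liminf_eq]
  exact liminf_le_liminf (Eventually.of_forall fun n => le_iSup (fun i => ∫⁻ x, c i x ∂(μs (φ n) : Measure E)) i)

end Abstract

section Points

variable {N : Network}

open Network

theorem dist_toPoint (p q : N.Raw) : dist (toPoint p) (toPoint q) = N.pathDist p q := rfl

theorem dist_loc_le (e : N.Arc) (x y : N.Coord e) : dist (loc e x) (loc e y) ≤ |(x : ℝ) - y| :=
  (Joined.along e x y).pathDist_le

theorem nodePt_src (e : N.Arc) : nodePt (N.src e) = loc e (N.first e) :=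
  dist_le_zero.1 (Joined.src e).pathDist_le

theorem nodePt_tgt (e : N.Arc) : nodePt (N.tgt e) = loc e (N.last e) :=
  dist_le_zero.1 (Joined.tgt e).pathDist_le

theorem continuous_loc (e : N.Arc) : Continuous (loc e : N.Coord e → N.Point) := by
  have : LipschitzWith 1 (loc e : N.Coord e → N.Point) :=
    LipschitzWith.of_dist_le_mul fun x y => by
      simpa [Subtype.dist_eq, Real.dist_eq] using dist_loc_le e x y
  exact this.continuous

theorem toPoint_surjective : Function.Surjective (toPoint : N.Raw → N.Point) :=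
  SeparationQuotient.surjective_mk

instance : CompactSpace N.Point := by
  have := N.finite_node
  have := N.finite_arc
  constructor
  have h : (Set.univ : Set N.Point) =
      (⋃ v : N.Node, {nodePt v}) ∪ ⋃ e : N.Arc, Set.range (loc e : N.Coord e → N.Point) := by
    ext P
    simp only [Set.mem_univ, true_iff, Set.mem_union, Set.mem_iUnion]
    obtain ⟨p, rfl⟩ := toPoint_surjective P
    cases p with
    | node v => left; exact ⟨v, rfl⟩
    | pt e x => right; exact ⟨e, x, rfl⟩
  rw [h]
  refine (isCompact_iUnion fun v => isCompact_singleton).union (isCompact_iUnion fun e => ?_)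
  exact isCompact_range (continuous_loc e)

end Points

section Traj

variable {N : Network} {O : N.Point}

namespace Trajectory

instance : BorelSpace (Trajectory N O) := ⟨rfl⟩

theorem pos_injective : Function.Injective (Trajectory.pos : Trajectory N O → ℝ≥0 → N.Point) := by
  intro S T h
  cases S; cases T; cases h; rfl

theorem isEmbedding_pos :
    Topology.IsEmbedding (Trajectory.pos : Trajectory N O → ℝ≥0 → N.Point) :=
  ⟨⟨rfl⟩, pos_injective⟩

theorem range_pos : Set.range (Trajectory.pos : Trajectory N O → ℝ≥0 → N.Point) =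
    {S : ℝ≥0 → N.Point | S 0 = O} ∩
      ⋂ (t : ℝ≥0) (t' : ℝ≥0), {S | dist (S t) (S t') ≤ |(t : ℝ) - (t' : ℝ)|} := by
  ext S
  constructor
  · rintro ⟨T, rfl⟩
    exact ⟨T.pos_zero, Set.mem_iInter₂.2 fun t t' => T.dist_pos_le t t'⟩
  · rintro ⟨h0, h1⟩
    exact ⟨⟨S, h0, fun t t' => Set.mem_iInter₂.1 h1 t t'⟩, rfl⟩

theorem isClosedEmbedding_pos :
    Topology.IsClosedEmbedding (Trajectory.pos : Trajectory N O → ℝ≥0 → N.Point) := by
  refine ⟨isEmbedding_pos, ?_⟩
  rw [range_pos]
  refine IsClosed.inter ?_ ?_
  · exact isClosed_eq (continuous_apply 0) continuous_const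
  · refine isClosed_iInter fun t => isClosed_iInter fun t' => ?_
    exact isClosed_le (Continuous.dist (continuous_apply t) (continuous_apply t')) continuous_const

theorem continuous_pos (S : Trajectory N O) : Continuous S.pos := by
  have : LipschitzWith 1 S.pos := LipschitzWith.of_dist_le_mul fun t t' => by
    simpa [NNReal.dist_eq] using S.dist_pos_le t t'
  exact this.continuous

instance : Nonempty (Trajectory N O) := ⟨⟨fun _ => O, rfl, fun t t' => by simp⟩⟩

theorem continuous_eval (t : ℝ≥0) : Continuous (fun S : Trajectory N O => S.pos t) :=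
  (continuous_apply t).comp isEmbedding_pos.continuous

instance : T2Space (Trajectory N O) := isEmbedding_pos.t2Space

instance : CompactSpace (Trajectory N O) := isClosedEmbedding_pos.compactSpace

instance : TopologicalSpace.MetrizableSpace (Trajectory N O) := by
  let φ : Trajectory N O → (ℕ → N.Point) := fun S n => S.pos (TopologicalSpace.denseSeq ℝ≥0 n)
  have hφ : Continuous φ := continuous_pi fun n => continuous_eval _
  have hinj : Function.Injective φ := by
    intro S T h
    apply pos_injective
    have : S.pos = T.pos := by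
      refine Continuous.ext_on (TopologicalSpace.denseRange_denseSeq ℝ≥0) S.continuous_pos
        T.continuous_pos ?_
      rintro _ ⟨n, rfl⟩
      exact congrFun h n
    exact this
  have he : Topology.IsClosedEmbedding φ := hφ.isClosedEmbedding hinj
  exact he.isEmbedding.metrizableSpace

theorem continuous_eval_joint : Continuous (fun p : ℝ≥0 × Trajectory N O => p.2.pos p.1) := by
  rw [continuous_iff_continuousAt]
  rintro ⟨t₀, S₀⟩
  rw [ContinuousAt, tendsto_iff_dist_tendsto_zero]
  have h1 : Tendsto (fun p : ℝ≥0 × Trajectory N O =>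
      |(p.1 : ℝ) - t₀| + dist (p.2.pos t₀) (S₀.pos t₀)) (𝓝 (t₀, S₀)) (𝓝 0) := by
    have hcont : Continuous (fun p : ℝ≥0 × Trajectory N O =>
        |(p.1 : ℝ) - t₀| + dist (p.2.pos t₀) (S₀.pos t₀)) := by
      refine Continuous.add ?_ ?_
      · exact ((NNReal.continuous_coe.comp continuous_fst).sub continuous_const).abs
      · exact ((continuous_eval t₀).comp continuous_snd).dist continuous_const
    have := hcont.tendsto (t₀, S₀)
    simpa using this
  refine squeeze_zero (fun _ => dist_nonneg) (fun p => ?_) h1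
  calc dist (p.2.pos p.1) (S₀.pos t₀)
      ≤ dist (p.2.pos p.1) (p.2.pos t₀) + dist (p.2.pos t₀) (S₀.pos t₀) := dist_triangle _ _ _
    _ ≤ _ := by gcongr; exact p.2.dist_pos_le _ _

theorem captureTime_le {S : Trajectory N O} {H : N.Point} {t : ℝ≥0} (h : S.pos t = H) :
    S.captureTime H ≤ t := iInf₂_le t h

theorem exists_pos_eq_of_captureTime_lt_top {S : Trajectory N O} {H : N.Point}
    (h : S.captureTime H < ⊤) : ∃ t : ℝ≥0, S.pos t = H ∧ S.captureTime H = t := by
  set A : Set ℝ≥0 := {t | S.pos t = H} with hA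
  have hne : A.Nonempty := by
    by_contra hcon
    rw [Set.not_nonempty_iff_eq_empty] at hcon
    have : S.captureTime H = ⊤ := by
      refine iInf₂_eq_top.2 fun t ht => ?_
      exact absurd (show t ∈ A from ht) (by simp [hcon])
    exact absurd h (by simp [this])
  have hcl : IsClosed A := isClosed_eq S.continuous_pos continuous_const
  have hmem : sInf A ∈ A := hcl.csInf_mem hne (OrderBot.bddBelow _)
  refine ⟨sInf A, hmem, le_antisymm (captureTime_le hmem) ?_⟩
  refine le_iInf₂ fun t ht => ?_
  have h1 : sInf A ≤ t := csInf_le (OrderBot.bddBelow A) (show t ∈ A from ht)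
  exact_mod_cast h1

theorem captureTime_le_iff {S : Trajectory N O} {H : N.Point} {r : ℝ≥0} :
    S.captureTime H ≤ r ↔ ∃ t ≤ r, S.pos t = H := by
  constructor
  · intro h
    obtain ⟨t, ht, htc⟩ := exists_pos_eq_of_captureTime_lt_top (lt_of_le_of_lt h ENNReal.coe_lt_top)
    refine ⟨t, ?_, ht⟩
    rw [htc] at h
    exact_mod_cast h
  · rintro ⟨t, ht, hH⟩
    exact (captureTime_le hH).trans (by exact_mod_cast ht)

theorem lowerSemicontinuous_captureTime (H : N.Point) :
    LowerSemicontinuous (fun S : Trajectory N O => S.captureTime H) := by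
  rw [lowerSemicontinuous_iff_isClosed_preimage]
  intro r
  induction r using ENNReal.recTopCoe with
  | top => simp
  | coe r =>
    have : (fun S : Trajectory N O => S.captureTime H) ⁻¹' Set.Iic (r : ℝ≥0∞) =
        Prod.snd '' ((Set.Icc 0 r ×ˢ Set.univ) ∩ {p : ℝ≥0 × Trajectory N O | p.2.pos p.1 = H}) := by
      ext S
      simp only [Set.mem_preimage, Set.mem_Iic, captureTime_le_iff]
      constructor
      · rintro ⟨t, ht, hH⟩
        exact ⟨(t, S), ⟨⟨⟨bot_le, ht⟩, trivial⟩, hH⟩, rfl⟩
      · rintro ⟨⟨t, S'⟩, ⟨⟨⟨_, ht⟩, _⟩, hH⟩, rfl⟩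
        exact ⟨t, ht, hH⟩
    rw [this]
    have hK : IsCompact (Set.Icc 0 r ×ˢ (Set.univ : Set (Trajectory N O))) :=
      isCompact_Icc.prod isCompact_univ
    have hcl : IsClosed {p : ℝ≥0 × Trajectory N O | p.2.pos p.1 = H} :=
      isClosed_eq continuous_eval_joint continuous_const
    exact ((hK.inter_right hcl).image continuous_snd).isClosed

theorem measurable_captureTime (H : N.Point) :
    Measurable (fun S : Trajectory N O => S.captureTime H) :=
  (lowerSemicontinuous_captureTime H).measurable

end Trajectory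

/-- Every network search game has an optimal (minimax) mixed search strategy. -/
theorem exists_isOptimal (N : Network) (O : N.Point) :
    ∃ s : ProbabilityMeasure (Trajectory N O), IsOptimal s :=
  exists_minimizer (fun H (S : Trajectory N O) => S.captureTime H)
    Trajectory.lowerSemicontinuous_captureTime

end Traj

end Pool.Agent.H64.NetSearch
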