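import Pool.Agent.H64.NetSearch.Theta

/-!
# Lower bound without a third traversal of the bridge
-/

set_option autoImplicit false

open scoped NNReal ENNReal Topology
open MeasureTheory Filter

namespace Pool.Agent.H64.NetSearch

open Network

namespace Theta

/-- A real function on time that goes from `≤ 0` to `≥ 1` goes from `0` to `1` inside `[0, 1]`. -/
theorem exists_crossing_up {g : ℝ≥0 → ℝ} (hg : Continuous g) {u v : ℝ≥0} (huv : u ≤ v)
    (hu : g u ≤ 0) (hv : 1 ≤ g v) :
    ∃ p q : ℝ≥0, u ≤ p ∧ p < q ∧ q ≤ v ∧ g p = 0 ∧ g q = 1 ∧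
      ∀ t, p ≤ t → t ≤ q → 0 ≤ g t ∧ g t ≤ 1 := by
  -- first time at which `g = 1`
  set A : Set ℝ≥0 := Set.Icc u v ∩ g ⁻¹' {1} with hA
  have hAc : IsCompact A := isCompact_Icc.inter_right (isClosed_singleton.preimage hg)
  have hAne : A.Nonempty := by
    have : (1 : ℝ) ∈ Set.Icc (g u) (g v) := ⟨by linarith, hv⟩
    obtain ⟨t, ht, hgt⟩ := intermediate_value_Icc huv hg.continuousOn this
    exact ⟨t, ht, hgt⟩
  obtain ⟨q, hqA, hqmin⟩ := hAc.exists_isLeast hAne
  have hq1 : g q = 1 := hqA.2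
  have hqlt : ∀ t, u ≤ t → t ≤ q → g t ≤ 1 := by
    intro t hut htq
    by_contra hcon
    push Not at hcon
    have : (1 : ℝ) ∈ Set.Icc (g u) (g t) := ⟨by linarith, hcon.le⟩
    obtain ⟨t', ht', hgt'⟩ := intermediate_value_Icc hut hg.continuousOn this
    have h1 : q ≤ t' := hqmin ⟨⟨ht'.1, ht'.2.trans (htq.trans hqA.1.2)⟩, hgt'⟩
    have h2 : t' = t := le_antisymm ht'.2 (htq.trans h1)
    rw [← h2] at hcon
    have h3 : g t' = 1 := hgt'
    linarith
  -- last time before `q` at which `g = 0`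
  set B : Set ℝ≥0 := Set.Icc u q ∩ g ⁻¹' {0} with hB
  have hBc : IsCompact B := isCompact_Icc.inter_right (isClosed_singleton.preimage hg)
  have hBne : B.Nonempty := by
    have : (0 : ℝ) ∈ Set.Icc (g u) (g q) := ⟨hu, by rw [hq1]; norm_num⟩
    obtain ⟨t, ht, hgt⟩ := intermediate_value_Icc hqA.1.1 hg.continuousOn this
    exact ⟨t, ht, hgt⟩
  obtain ⟨p, hpB, hpmax⟩ := hBc.exists_isGreatest hBne
  have hp0 : g p = 0 := hpB.2
  have hpq : p < q := by
    refine lt_of_le_of_ne hpB.1.2 fun h => ?_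
    rw [h, hq1] at hp0
    norm_num at hp0
  refine ⟨p, q, hpB.1.1, hpq, hqA.1.2, hp0, hq1, fun t hpt htq => ⟨?_, hqlt t (hpB.1.1.trans hpt) htq⟩⟩
  by_contra hcon
  push Not at hcon
  have : (0 : ℝ) ∈ Set.Icc (g t) (g q) := ⟨hcon.le, by rw [hq1]; norm_num⟩
  obtain ⟨t', ht', hgt'⟩ := intermediate_value_Icc htq hg.continuousOn this
  have h1 : t' ≤ p := hpmax ⟨⟨hpB.1.1.trans (hpt.trans ht'.1), ht'.2⟩, hgt'⟩
  have h2 : t' = t := le_antisymm (h1.trans hpt) ht'.1
  rw [← h2] at hcon
  have h3 : g t' = 0 := hgt'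
  linarith

theorem exists_crossing_down {g : ℝ≥0 → ℝ} (hg : Continuous g) {u v : ℝ≥0} (huv : u ≤ v)
    (hu : 1 ≤ g u) (hv : g v ≤ 0) :
    ∃ p q : ℝ≥0, u ≤ p ∧ p < q ∧ q ≤ v ∧ g p = 1 ∧ g q = 0 ∧
      ∀ t, p ≤ t → t ≤ q → 0 ≤ g t ∧ g t ≤ 1 := by
  obtain ⟨p, q, h1, h2, h3, h4, h5, h6⟩ := exists_crossing_up (g := fun t => 1 - g t)
    (continuous_const.sub hg) huv (by linarith) (by linarith)
  refine ⟨p, q, h1, h2, h3, by linarith, by linarith, fun t hpt htq => ?_⟩
  have := h6 t hpt htq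
  exact ⟨by linarith [this.2], by linarith [this.1]⟩

/-- Points whose signed distance from `O` lies in `[0, 1]` are on the bridge. -/
theorem eq_loc_bridge (P : theta.Point) (h : 0 ≤ phi.val P ∧ phi.val P ≤ 1) :
    P = loc (N := theta) ThetaArc.bridge ⟨phi.val P, h⟩ := by
  have key : ∀ z : theta.Coord ThetaArc.bridge, P = loc (N := theta) ThetaArc.bridge z →
      P = loc (N := theta) ThetaArc.bridge ⟨phi.val P, h⟩ := by
    intro z hz
    have : (⟨phi.val P, h⟩ : theta.Coord ThetaArc.bridge) = z := by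
      apply Subtype.ext
      change phi.val P = z
      rw [hz]; rfl
    rw [this]; exact hz
  obtain ⟨p, rfl⟩ := toPoint_surjective P
  match p, h, key with
  | .node .O, _, key => exact key _ (nodePt_src (N := theta) ThetaArc.bridge)
  | .node .X, h, _ =>
    exfalso
    have : (0 : ℝ) ≤ -1000 := h.1
    norm_num at this
  | .node .A, _, key => exact key _ (nodePt_tgt (N := theta) ThetaArc.bridge)
  | .node .B, h, _ =>
    exfalso
    have : (7 : ℝ) ≤ 1 := h.2
    norm_num at this
  | .pt .tail x, h, key =>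
    have h1 : (0 : ℝ) ≤ -(x : ℝ) := h.1
    have hx : x = theta.first ThetaArc.tail := by
      apply Subtype.ext
      change (x : ℝ) = 0
      exact le_antisymm (by linarith) x.2.1
    subst hx
    have h2 := nodePt_src (N := theta) ThetaArc.tail
    have h3 := nodePt_src (N := theta) ThetaArc.bridge
    exact key _ (h2.symm.trans h3)
  | .pt .bridge x, _, key => exact key x rfl
  | .pt (.side i) x, h, key =>
    have h1 : 1 + (x : ℝ) ≤ 1 := h.2
    have hx : x = theta.first (ThetaArc.side i) := by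
      apply Subtype.ext
      change (x : ℝ) = 0
      exact le_antisymm (by linarith) x.2.1
    subst hx
    have h2 := nodePt_src (N := theta) (ThetaArc.side i)
    have h3 := nodePt_tgt (N := theta) ThetaArc.bridge
    exact key _ (h2.symm.trans h3)

theorem traverses_of_crossing (S : Trajectory theta O) {p q : ℝ≥0}
    (hpq : (phi.val (S.pos p) = 0 ∧ phi.val (S.pos q) = 1) ∨
      (phi.val (S.pos p) = 1 ∧ phi.val (S.pos q) = 0))
    (h : ∀ t, p ≤ t → t ≤ q → 0 ≤ phi.val (S.pos t) ∧ phi.val (S.pos t) ≤ 1) :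
    S.TraversesDuring (N := theta) ThetaArc.bridge (theta.first ThetaArc.bridge)
      (theta.last ThetaArc.bridge) p q := by
  have h0 : ∀ t, phi.val (S.pos t) = 0 →
      S.pos t = loc (N := theta) ThetaArc.bridge (theta.first ThetaArc.bridge) := by
    intro t ht
    have := eq_loc_bridge (S.pos t) ⟨ht.ge, by rw [ht]; norm_num⟩
    rw [this]
    congr 1
    apply Subtype.ext
    exact ht
  have h1 : ∀ t, phi.val (S.pos t) = 1 →
      S.pos t = loc (N := theta) ThetaArc.bridge (theta.last ThetaArc.bridge) := by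
    intro t ht
    have := eq_loc_bridge (S.pos t) ⟨by rw [ht]; norm_num, ht.le⟩
    rw [this]
    congr 1
    apply Subtype.ext
    exact ht
  refine ⟨fun t hpt htq => ?_, ?_⟩
  · have := h t hpt htq
    exact ⟨⟨phi.val (S.pos t), this⟩, this.1, this.2, eq_loc_bridge _ this⟩
  · rcases hpq with ⟨hp, hq⟩ | ⟨hp, hq⟩
    · exact Or.inl ⟨h0 p hp, h1 q hq⟩
    · exact Or.inr ⟨h1 p hp, h0 q hq⟩

theorem phi_pnt (p : Fin 6) : 3 ≤ phi.val (pnt p) := by
  fin_cases p <;> simp only [pnt] <;> first
    | exact (phi_a _).ge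
    | exact le_trans (by norm_num) (phi_b _).ge

/-- The set of trajectories that visit one of the six special points, later `X`, and only after
that another special point. -/
def bad : Set (Trajectory theta O) :=
  {S | ∃ p q : Fin 6, S.captureTime (pnt p) < S.captureTime X ∧
    S.captureTime X < S.captureTime (pnt q) ∧ S.captureTime (pnt q) < ⊤}

theorem measurableSet_bad : MeasurableSet bad := by
  have : bad = ⋃ p : Fin 6, ⋃ q : Fin 6,
      ({S : Trajectory theta O | S.captureTime (pnt p) < S.captureTime X} ∩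
      {S : Trajectory theta O | S.captureTime X < S.captureTime (pnt q)}) ∩
      {S : Trajectory theta O | S.captureTime (pnt q) < ⊤} := by
    ext S
    simp only [bad, Set.mem_ofPred_eq, Set.mem_iUnion, Set.mem_inter_iff]
    constructor
    · rintro ⟨p, q, h1, h2, h3⟩; exact ⟨p, q, ⟨h1, h2⟩, h3⟩
    · rintro ⟨p, q, ⟨h1, h2⟩, h3⟩; exact ⟨p, q, h1, h2, h3⟩
  rw [this]
  refine MeasurableSet.iUnion fun p => MeasurableSet.iUnion fun q => ?_
  refine ((measurableSet_lt ?_ ?_).inter (measurableSet_lt ?_ ?_)).inter (measurableSet_lt ?_ ?_) <;>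
  first
    | exact Trajectory.measurable_captureTime _
    | exact measurable_const

theorem visits_of_bad {S : Trajectory theta O} (hS : S ∈ bad) : S.VisitsPartMoreThanTwice := by
  obtain ⟨p, q, h1, h2, h3⟩ := hS
  obtain ⟨tq, hq, hqc⟩ := Trajectory.exists_pos_eq_of_captureTime_lt_top h3
  obtain ⟨tx, hx, hxc⟩ := Trajectory.exists_pos_eq_of_captureTime_lt_top (h2.trans h3)
  obtain ⟨tp, hp, hpc⟩ := Trajectory.exists_pos_eq_of_captureTime_lt_top (h1.trans (h2.trans h3))
  rw [hpc, hxc] at h1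
  rw [hxc, hqc] at h2
  have hpx : tp ≤ tx := (ENNReal.coe_lt_coe.1 h1).le
  have hxq : tx ≤ tq := (ENNReal.coe_lt_coe.1 h2).le
  set g : ℝ≥0 → ℝ := fun t => phi.val (S.pos t) with hg
  have hgc : Continuous g := phi.continuous_val.comp S.continuous_pos
  have g0 : g 0 ≤ 0 := by
    have : g 0 = phi.val O := by simp only [hg, S.pos_zero]
    rw [this, phi_O]
  have gp : 1 ≤ g tp := by
    have : g tp = phi.val (pnt p) := by simp only [hg, hp]
    rw [this]; linarith [phi_pnt p]
  have gx : g tx ≤ 0 := by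
    have : g tx = phi.val X := by simp only [hg, hx]
    rw [this, phi_X]; norm_num
  have gq : 3 ≤ g tq := by
    have : g tq = phi.val (pnt q) := by simp only [hg, hq]
    rw [this]; exact phi_pnt q
  obtain ⟨a₁, b₁, -, hab1, hb1, ha10, hb11, h01⟩ := exists_crossing_up hgc (bot_le : 0 ≤ tp) g0 gp
  obtain ⟨a₂, b₂, ha2, hab2, hb2, ha21, hb20, h02⟩ := exists_crossing_down hgc hpx gp gx
  obtain ⟨a₃, b₃, ha3, hab3, hb3, ha30, hb31, h03⟩ :=
    exists_crossing_up hgc hxq gx (by linarith)
  refine ⟨ThetaArc.bridge, theta.first ThetaArc.bridge, theta.last ThetaArc.bridge, ?_, a₁, b₁,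
    a₂, b₂, a₃, b₃, hab1, hb1.trans ha2, hab2, hb2.trans ha3, hab3, ?_, ?_, ?_, pnt q, ?_⟩
  · change (0 : ℝ) < 1; norm_num
  · exact traverses_of_crossing S (Or.inl ⟨ha10, hb11⟩) h01
  · exact traverses_of_crossing S (Or.inr ⟨ha21, hb20⟩) h02
  · exact traverses_of_crossing S (Or.inl ⟨ha30, hb31⟩) h03
  · intro t ht hcon
    have h4 : (tq : ℝ≥0∞) ≤ t := hqc ▸ Trajectory.captureTime_le hcon
    have h5 : tq ≤ t := ENNReal.coe_le_coe.1 h4
    have h6 : b₃ = tq := le_antisymm hb3 (h5.trans ht)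
    rw [h6] at hb31
    linarith

/-- Outside `bad`, a weighted combination of the capture times of `X` and of the six special
points is large. -/
theorem lower_bound {S : Trajectory theta O} (hS : S ∉ bad) :
    (6064548 : ℝ≥0∞) ≤ 5934 * S.captureTime X + 11 * ∑ p : Fin 6, S.captureTime (pnt p) := by
  by_cases hX : S.captureTime X = ⊤
  · rw [hX, ENNReal.mul_top (by norm_num)]; simp
  by_cases hP : ∃ p, S.captureTime (pnt p) = ⊤
  · obtain ⟨p, hp⟩ := hP
    have : ∑ p : Fin 6, S.captureTime (pnt p) = ⊤ := ENNReal.sum_eq_top.2 ⟨p, Finset.mem_univ p, hp⟩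
    rw [this, ENNReal.mul_top (by norm_num)]; simp
  push Not at hP
  obtain ⟨x, hx, hxc⟩ := Trajectory.exists_pos_eq_of_captureTime_lt_top (lt_top_iff_ne_top.2 hX)
  have hP' := fun p => Trajectory.exists_pos_eq_of_captureTime_lt_top (lt_top_iff_ne_top.2 (hP p))
  choose τ hτ hτc using hP'
  rw [hxc]
  simp_rw [hτc]
  have hmain : (6064548 : ℝ) ≤ 5934 * x + 11 * ∑ p : Fin 6, (τ p : ℝ) := by
    have hne : ∀ p, τ p ≠ x := by
      intro p h
      have h1 : pnt p = X := by rw [← hτ p, ← hx, h]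
      have h2 := phi_pnt p
      rw [h1, phi_X] at h2
      norm_num at h2
    have hdx : ∀ p, 1000 + (ss p : ℝ) ≤ |(τ p : ℝ) - x| := fun p => by
      have h1 := ss_le_dist_X p
      have h2 := S.dist_pos_le (τ p) x
      rw [hτ, hx] at h2
      linarith
    have hss0 : ∀ p, (0 : ℝ) ≤ ss p := fun p => Nat.cast_nonneg _
    have hx1000 : (1000 : ℝ) ≤ x := by
      have h1 := le_dist_O_X
      have h2 := S.dist_pos_le 0 x
      rw [S.pos_zero, hx] at h2
      have h3 : |((0 : ℝ≥0) : ℝ) - x| = x := by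
        rw [NNReal.coe_zero, zero_sub, abs_neg, abs_of_nonneg (NNReal.coe_nonneg x)]
      linarith
    by_cases hcase : ∃ p, τ p < x
    · -- all special points are visited before `X`
      obtain ⟨p₀, hp₀⟩ := hcase
      have hall : ∀ q, τ q < x := by
        intro q
        by_contra hcon
        push Not at hcon
        have hlt : x < τ q := lt_of_le_of_ne hcon (fun h => hne q h.symm)
        exact hS ⟨p₀, q, by rw [hτc, hxc]; exact_mod_cast hp₀, by rw [hτc, hxc]; exact_mod_cast hlt,
          by rw [hτc]; exact ENNReal.coe_lt_top⟩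
      have htour := tour_bound (fun p => (τ p : ℝ)) (x - 1000)
        (fun p => by
          have h1 := ss_le_dist_O p
          have h2 := S.dist_pos_le 0 (τ p)
          rw [S.pos_zero, hτ] at h2
          have h3 : |((0 : ℝ≥0) : ℝ) - τ p| = τ p := by
            rw [NNReal.coe_zero, zero_sub, abs_neg, abs_of_nonneg (NNReal.coe_nonneg (τ p))]
          linarith)
        (fun p q hpq => by
          have h1 := dd_le_dist p q hpq
          have h2 := S.dist_pos_le (τ p) (τ q)
          rw [hτ, hτ] at h2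
          linarith)
        (fun p => by
          have h1 := hdx p
          have h2 : (τ p : ℝ) < x := NNReal.coe_lt_coe.2 (hall p)
          rw [abs_sub_comm, abs_of_nonneg (by linarith)] at h1
          linarith)
      have hsum : (0 : ℝ) ≤ ∑ p : Fin 6, (τ p : ℝ) := Finset.sum_nonneg fun p _ => (τ p).2
      linarith
    · push Not at hcase
      have hall : ∀ q, (2000 : ℝ) ≤ τ q := by
        intro q
        have h1 := hdx q
        have h2 : (x : ℝ) ≤ τ q := NNReal.coe_le_coe.2 (hcase q)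
        rw [abs_of_nonneg (by linarith)] at h1
        linarith [hss0 q]
      have hsum : (12000 : ℝ) ≤ ∑ p : Fin 6, (τ p : ℝ) := by
        have : ∑ p : Fin 6, (2000 : ℝ) ≤ ∑ p : Fin 6, (τ p : ℝ) :=
          Finset.sum_le_sum fun p _ => hall p
        simpa using this.trans' (by norm_num)
      linarith
  have hfin : (6064548 : ℝ≥0) ≤ 5934 * x + 11 * ∑ p : Fin 6, τ p := by
    rw [← NNReal.coe_le_coe]
    push_cast
    exact hmain
  have := ENNReal.coe_le_coe.2 hfin
  push_cast at this
  exact this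

end Theta

end Pool.Agent.H64.NetSearch
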