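import Pool.Agent.H64.NetSearch.Walk

/-!
# The network: a tail, a bridge and three parallel arcs
-/

set_option autoImplicit false

open scoped NNReal ENNReal Topology
open MeasureTheory Filter

namespace Pool.Agent.H64.NetSearch

open Network

/-- Nodes: the start `O`, the far end `X` of the tail, and the two nodes `A`, `B` joined by the
three parallel arcs. -/
inductive ThetaNode : Type
  | O | X | A | B

instance : Finite ThetaNode :=
  Finite.of_injective (β := Fin 4)
    (fun a => match a with
      | .O => 0
      | .X => 1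
      | .A => 2
      | .B => 3) (by
        intro a b h
        cases a <;> cases b <;> simp_all)

/-- Arcs: the tail `O`-`X`, the bridge `O`-`A` and three parallel arcs `A`-`B`. -/
inductive ThetaArc : Type
  | tail | bridge | side (i : Fin 3)

instance : Finite ThetaArc :=
  Finite.of_injective (β := Option (Option (Fin 3)))
    (fun a => match a with
      | .tail => none
      | .bridge => some none
      | .side i => some (some i)) (by
        intro a b h
        cases a <;> cases b <;> simp_all)

/-- The network: tail of length `1000`, bridge of length `1`, three parallel arcs of length `6`. -/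
def theta : Network where
  Node := ThetaNode
  Arc := ThetaArc
  finite_node := inferInstance
  finite_arc := inferInstance
  nonempty_node := ⟨.O⟩
  src := fun a => match a with
    | .tail => .O
    | .bridge => .O
    | .side _ => .A
  tgt := fun a => match a with
    | .tail => .X
    | .bridge => .A
    | .side _ => .B
  len := fun a => match a with
    | .tail => 1000
    | .bridge => 1
    | .side _ => 6
  len_pos := fun a => by cases a <;> norm_num
  connected := by
    have hX : Relation.EqvGen (fun a b : ThetaNode => ∃ e : ThetaArc,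
        (match e with | .tail => .O | .bridge => .O | .side _ => .A) = a ∧
        (match e with | .tail => .X | .bridge => .A | .side _ => .B) = b) .O .X :=
      .rel _ _ ⟨.tail, rfl, rfl⟩
    have hA : Relation.EqvGen (fun a b : ThetaNode => ∃ e : ThetaArc,
        (match e with | .tail => .O | .bridge => .O | .side _ => .A) = a ∧
        (match e with | .tail => .X | .bridge => .A | .side _ => .B) = b) .O .A :=
      .rel _ _ ⟨.bridge, rfl, rfl⟩
    have hB : Relation.EqvGen (fun a b : ThetaNode => ∃ e : ThetaArc,
        (match e with | .tail => .O | .bridge => .O | .side _ => .A) = a ∧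
        (match e with | .tail => .X | .bridge => .A | .side _ => .B) = b) .O .B :=
      hA.trans _ _ _ (.rel _ _ ⟨.side 0, rfl, rfl⟩)
    have key : ∀ u : ThetaNode, Relation.EqvGen (fun a b : ThetaNode => ∃ e : ThetaArc,
        (match e with | .tail => .O | .bridge => .O | .side _ => .A) = a ∧
        (match e with | .tail => .X | .bridge => .A | .side _ => .B) = b) .O u := by
      intro u
      cases u
      · exact .refl _
      · exact hX
      · exact hA
      · exact hB
    intro u v
    exact (key u).symm.trans _ _ _ (key v)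

namespace Theta

/-- The starting point. -/
noncomputable def O : theta.Point := nodePt (N := theta) ThetaNode.O

/-- The far end of the tail. -/
noncomputable def X : theta.Point := nodePt (N := theta) ThetaNode.X

/-- Coordinates on the parallel arcs. -/
def sideCoord (i : Fin 3) (x : ℝ) (h0 : 0 ≤ x) (h1 : x ≤ 6) : theta.Coord (ThetaArc.side i) :=
  ⟨x, h0, h1⟩

/-- The point of the parallel arc `i` at distance `2` from `A`. -/
noncomputable def a (i : Fin 3) : theta.Point :=
  loc (N := theta) (ThetaArc.side i) (sideCoord i 2 (by norm_num) (by norm_num))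

/-- The point of the parallel arc `i` at distance `4` from `A`. -/
noncomputable def b (i : Fin 3) : theta.Point :=
  loc (N := theta) (ThetaArc.side i) (sideCoord i 4 (by norm_num) (by norm_num))

/-- signed distance from `O` along the tail and the bridge -/
def phi : Potential theta where
  f := fun p => match p with
    | .node .O => 0
    | .node .X => -1000
    | .node .A => 1
    | .node .B => 7
    | .pt .tail x => -x
    | .pt .bridge x => x
    | .pt (.side _) x => 1 + x
  along := by
    intro e x y
    cases e
    · have : (-(x : ℝ) - -(y : ℝ)) = -((x : ℝ) - y) := by ring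
      change |(-(x : ℝ) - -(y : ℝ))| ≤ _
      rw [this, abs_neg]
    · exact le_rfl
    · change |(1 + (x : ℝ)) - (1 + (y : ℝ))| ≤ _
      rw [add_sub_add_left_eq_sub]
  src := by
    intro e
    cases e
    · change (0 : ℝ) = -(0 : ℝ); norm_num
    · rfl
    · change (1 : ℝ) = 1 + 0; norm_num
  tgt := by
    intro e
    cases e
    · rfl
    · rfl
    · change (7 : ℝ) = 1 + 6; norm_num

theorem abs_min_sub_min_le (a b c d : ℝ) {r : ℝ} (h1 : |a - c| ≤ r) (h2 : |b - d| ≤ r) :
    |min a b - min c d| ≤ r := by
  refine (abs_min_sub_min_le_max a b c d).trans (max_le h1 h2)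

/-- distance from `a i` -/
noncomputable def fa (i : Fin 3) : Potential theta where
  f := fun p => match p with
    | .node .O => 3
    | .node .X => 1003
    | .node .A => 2
    | .node .B => 4
    | .pt .tail x => 3 + x
    | .pt .bridge x => 3 - x
    | .pt (.side j) x => if j = i then |(x : ℝ) - 2| else min (2 + (x : ℝ)) (10 - x)
  along := by
    intro e x y
    cases e with
    | tail =>
      change |(3 + (x : ℝ)) - (3 + (y : ℝ))| ≤ _
      rw [add_sub_add_left_eq_sub]
    | bridge =>
      change |(3 - (x : ℝ)) - (3 - (y : ℝ))| ≤ _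
      rw [sub_sub_sub_cancel_left, abs_sub_comm]
    | side j =>
      change |(if j = i then |(x : ℝ) - 2| else min (2 + (x : ℝ)) (10 - x)) -
        (if j = i then |(y : ℝ) - 2| else min (2 + (y : ℝ)) (10 - y))| ≤ _
      split_ifs
      · refine (abs_abs_sub_abs_le_abs_sub _ _).trans (le_of_eq ?_)
        congr 1; ring
      · refine abs_min_sub_min_le _ _ _ _ (le_of_eq ?_) (le_of_eq ?_)
        · congr 1; ring
        · rw [abs_sub_comm]; congr 1; ring
  src := by
    intro e
    cases e with
    | tail => change (3 : ℝ) = 3 + 0; norm_num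
    | bridge => change (3 : ℝ) = 3 - 0; norm_num
    | side j =>
      change (2 : ℝ) = if j = i then |(0 : ℝ) - 2| else min (2 + (0 : ℝ)) (10 - 0)
      split_ifs <;> norm_num
  tgt := by
    intro e
    cases e with
    | tail => change (1003 : ℝ) = 3 + 1000; norm_num
    | bridge => change (2 : ℝ) = 3 - 1; norm_num
    | side j =>
      change (4 : ℝ) = if j = i then |(6 : ℝ) - 2| else min (2 + (6 : ℝ)) (10 - 6)
      split_ifs <;> norm_num

/-- distance from `b i` -/
noncomputable def fb (i : Fin 3) : Potential theta where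
  f := fun p => match p with
    | .node .O => 5
    | .node .X => 1005
    | .node .A => 4
    | .node .B => 2
    | .pt .tail x => 5 + x
    | .pt .bridge x => 5 - x
    | .pt (.side j) x => if j = i then |(x : ℝ) - 4| else min (4 + (x : ℝ)) (8 - x)
  along := by
    intro e x y
    cases e with
    | tail =>
      change |(5 + (x : ℝ)) - (5 + (y : ℝ))| ≤ _
      rw [add_sub_add_left_eq_sub]
    | bridge =>
      change |(5 - (x : ℝ)) - (5 - (y : ℝ))| ≤ _
      rw [sub_sub_sub_cancel_left, abs_sub_comm]
    | side j =>
      change |(if j = i then |(x : ℝ) - 4| else min (4 + (x : ℝ)) (8 - x)) -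
        (if j = i then |(y : ℝ) - 4| else min (4 + (y : ℝ)) (8 - y))| ≤ _
      split_ifs
      · refine (abs_abs_sub_abs_le_abs_sub _ _).trans (le_of_eq ?_)
        congr 1; ring
      · refine abs_min_sub_min_le _ _ _ _ (le_of_eq ?_) (le_of_eq ?_)
        · congr 1; ring
        · rw [abs_sub_comm]; congr 1; ring
  src := by
    intro e
    cases e with
    | tail => change (5 : ℝ) = 5 + 0; norm_num
    | bridge => change (5 : ℝ) = 5 - 0; norm_num
    | side j =>
      change (4 : ℝ) = if j = i then |(0 : ℝ) - 4| else min (4 + (0 : ℝ)) (8 - 0)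
      split_ifs <;> norm_num
  tgt := by
    intro e
    cases e with
    | tail => change (1005 : ℝ) = 5 + 1000; norm_num
    | bridge => change (4 : ℝ) = 5 - 1; norm_num
    | side j =>
      change (2 : ℝ) = if j = i then |(6 : ℝ) - 4| else min (4 + (6 : ℝ)) (8 - 6)
      split_ifs <;> norm_num

theorem fa_a (i j : Fin 3) : (fa i).val (a j) = if j = i then 0 else 4 := by
  change (if j = i then |(2 : ℝ) - 2| else min (2 + (2 : ℝ)) (10 - 2)) = _
  split_ifs <;> norm_num

theorem fa_b (i j : Fin 3) : (fa i).val (b j) = if j = i then 2 else 6 := by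
  change (if j = i then |(4 : ℝ) - 2| else min (2 + (4 : ℝ)) (10 - 4)) = _
  split_ifs <;> norm_num

theorem fb_a (i j : Fin 3) : (fb i).val (a j) = if j = i then 2 else 6 := by
  change (if j = i then |(2 : ℝ) - 4| else min (4 + (2 : ℝ)) (8 - 2)) = _
  split_ifs <;> norm_num

theorem fb_b (i j : Fin 3) : (fb i).val (b j) = if j = i then 0 else 4 := by
  change (if j = i then |(4 : ℝ) - 4| else min (4 + (4 : ℝ)) (8 - 4)) = _
  split_ifs <;> norm_num

theorem fa_O (i : Fin 3) : (fa i).val O = 3 := rfl
theorem fa_X (i : Fin 3) : (fa i).val X = 1003 := rfl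
theorem fb_O (i : Fin 3) : (fb i).val O = 5 := rfl
theorem fb_X (i : Fin 3) : (fb i).val X = 1005 := rfl
theorem phi_O : phi.val O = 0 := rfl
theorem phi_X : phi.val X = -1000 := rfl
theorem phi_a (i : Fin 3) : phi.val (a i) = 3 := by
  change (1 : ℝ) + 2 = 3; norm_num
theorem phi_b (i : Fin 3) : phi.val (b i) = 5 := by
  change (1 : ℝ) + 4 = 5; norm_num

/-- The six special points. -/
noncomputable def pnt : Fin 6 → theta.Point := ![a 0, b 0, a 1, b 1, a 2, b 2]

/-- Distances between the six special points. -/
def dd (p q : Fin 6) : ℕ :=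
  if p.1 / 2 = q.1 / 2 then 2 else if p.1 % 2 = q.1 % 2 then 4 else 6

/-- Distances from `O` to the six special points. -/
def ss (p : Fin 6) : ℕ := if p.1 % 2 = 0 then 3 else 5

theorem dd_le_dist (p q : Fin 6) (h : p ≠ q) : (dd p q : ℝ) ≤ dist (pnt p) (pnt q) := by
  have ha : ∀ (i : Fin 3) (P Q : theta.Point), (fa i).val Q - (fa i).val P ≤ dist P Q :=
    fun i P Q => (le_abs_self _).trans (by rw [abs_sub_comm]; exact (fa i).abs_sub_le_dist P Q)
  have hb : ∀ (i : Fin 3) (P Q : theta.Point), (fb i).val Q - (fb i).val P ≤ dist P Q :=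
    fun i P Q => (le_abs_self _).trans (by rw [abs_sub_comm]; exact (fb i).abs_sub_le_dist P Q)
  have haa : ∀ i j : Fin 3, i ≠ j → (4 : ℝ) ≤ dist (a i) (a j) := fun i j hij => by
    have := ha i (a i) (a j)
    rw [fa_a, fa_a, if_neg hij.symm, if_pos rfl] at this
    linarith
  have hbb : ∀ i j : Fin 3, i ≠ j → (4 : ℝ) ≤ dist (b i) (b j) := fun i j hij => by
    have := hb i (b i) (b j)
    rw [fb_b, fb_b, if_neg hij.symm, if_pos rfl] at this
    linarith
  have hab : ∀ i j : Fin 3, i ≠ j → (6 : ℝ) ≤ dist (a i) (b j) := fun i j hij => by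
    have := ha i (a i) (b j)
    rw [fa_a, fa_b, if_neg hij.symm, if_pos rfl] at this
    linarith
  have hba : ∀ i j : Fin 3, i ≠ j → (6 : ℝ) ≤ dist (b i) (a j) := fun i j hij => by
    have := hb i (b i) (a j)
    rw [fb_a, fb_b, if_neg hij.symm, if_pos rfl] at this
    linarith
  have hab' : ∀ i : Fin 3, (2 : ℝ) ≤ dist (a i) (b i) := fun i => by
    have := ha i (a i) (b i)
    rw [fa_a, fa_b, if_pos rfl, if_pos rfl] at this
    linarith
  have hba' : ∀ i : Fin 3, (2 : ℝ) ≤ dist (b i) (a i) := fun i => by
    have := hb i (b i) (a i)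
    rw [fb_a, fb_b, if_pos rfl, if_pos rfl] at this
    linarith
  fin_cases p <;> fin_cases q <;> first
    | exact absurd rfl h
    | (norm_num [dd, pnt]; first
        | exact haa _ _ (by decide)
        | exact hbb _ _ (by decide)
        | exact hab _ _ (by decide)
        | exact hba _ _ (by decide)
        | exact hab' _
        | exact hba' _)

theorem ss_le_dist_O (p : Fin 6) : (ss p : ℝ) ≤ dist O (pnt p) := by
  have ha : ∀ i : Fin 3, (3 : ℝ) ≤ dist O (a i) := fun i => by
    have := (fa i).abs_sub_le_dist O (a i)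
    rw [fa_O, fa_a, if_pos rfl] at this
    exact (le_abs_self _).trans (by simpa using this)
  have hb : ∀ i : Fin 3, (5 : ℝ) ≤ dist O (b i) := fun i => by
    have := (fb i).abs_sub_le_dist O (b i)
    rw [fb_O, fb_b, if_pos rfl] at this
    exact (le_abs_self _).trans (by simpa using this)
  fin_cases p <;> norm_num [ss, pnt] <;> first
    | exact ha _
    | exact hb _

theorem ss_le_dist_X (p : Fin 6) : (1000 + ss p : ℝ) ≤ dist (pnt p) X := by
  have ha : ∀ i : Fin 3, (1003 : ℝ) ≤ dist (a i) X := fun i => by
    have := (fa i).abs_sub_le_dist X (a i)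
    rw [fa_X, fa_a, if_pos rfl, dist_comm] at this
    exact (le_abs_self _).trans (by simpa using this)
  have hb : ∀ i : Fin 3, (1005 : ℝ) ≤ dist (b i) X := fun i => by
    have := (fb i).abs_sub_le_dist X (b i)
    rw [fb_X, fb_b, if_pos rfl, dist_comm] at this
    exact (le_abs_self _).trans (by simpa using this)
  fin_cases p <;> norm_num [ss, pnt] <;> first
    | exact ha _
    | exact hb _

theorem le_dist_O_X : (1000 : ℝ) ≤ dist O X := by
  have := phi.abs_sub_le_dist O X
  rw [phi_O, phi_X] at this
  exact (le_abs_self _).trans (by simpa using this)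

/-- `allGE n p rem B`: every way to visit the points of `rem` one after another, starting from
`p`, and then to leave costs at least `B`. -/
def allGE : ℕ → Fin 6 → List (Fin 6) → ℕ → Bool
  | 0, p, rem, B => rem.isEmpty && decide (B ≤ ss p)
  | n + 1, p, rem, B =>
    (!rem.isEmpty || decide (B ≤ ss p)) && rem.all fun q => allGE n q (rem.erase q) (B - dd p q)

theorem allGE_sound (τ : Fin 6 → ℝ) (Y : ℝ)
    (hdd : ∀ p q, p ≠ q → (dd p q : ℝ) ≤ |τ p - τ q|)
    (hss : ∀ p, τ p + ss p ≤ Y) :
    ∀ (n : ℕ) (p : Fin 6) (rem : List (Fin 6)) (B : ℕ), rem.Nodup → p ∉ rem →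
      (∀ q ∈ rem, τ p ≤ τ q) → allGE n p rem B = true → τ p + B ≤ Y := by
  intro n
  induction n with
  | zero =>
    intro p rem B _ _ _ h
    simp only [allGE, Bool.and_eq_true, decide_eq_true_eq] at h
    have h2 : (B : ℝ) ≤ ss p := by exact_mod_cast h.2
    have := hss p
    linarith
  | succ n ih =>
    intro p rem B hnd hp hle h
    simp only [allGE, Bool.and_eq_true, Bool.or_eq_true, decide_eq_true_eq, List.all_eq_true] at h
    rcases eq_or_ne rem [] with rfl | hne
    · have h2 : (B : ℝ) ≤ ss p := by
        rcases h.1 with h1 | h1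
        · simp at h1
        · exact_mod_cast h1
      have := hss p
      linarith
    · obtain ⟨q, hq, hmin⟩ : ∃ q ∈ rem, ∀ r ∈ rem, τ q ≤ τ r := by
        obtain ⟨q, hq, hmin⟩ := Finset.exists_min_image rem.toFinset τ (by
          simpa [Finset.nonempty_iff_ne_empty] using hne)
        exact ⟨q, by simpa using hq, fun r hr => hmin r (by simpa using hr)⟩
      have h1 := h.2 q hq
      have h2 := ih q (rem.erase q) (B - dd p q) (hnd.erase q) (hnd.not_mem_erase)
        (fun r hr => hmin r (List.mem_of_mem_erase hr)) h1
      have hpq : p ≠ q := fun h => hp (h ▸ hq)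
      have h3 := hdd p q hpq
      rw [abs_sub_comm, abs_of_nonneg (sub_nonneg.2 (hle q hq))] at h3
      have h4 : (B : ℝ) ≤ (B - dd p q : ℕ) + dd p q := by
        exact_mod_cast (le_tsub_add : B ≤ B - dd p q + dd p q)
      linarith

theorem allGE_start : ∀ q : Fin 6, allGE 5 q ([0, 1, 2, 3, 4, 5].erase q) (22 - ss q) = true := by
  decide

theorem tour_bound (τ : Fin 6 → ℝ) (Y : ℝ) (h0 : ∀ p, (ss p : ℝ) ≤ τ p)
    (hdd : ∀ p q, p ≠ q → (dd p q : ℝ) ≤ |τ p - τ q|)
    (hss : ∀ p, τ p + ss p ≤ Y) : 22 ≤ Y := by
  obtain ⟨q, -, hmin⟩ := Finset.exists_min_image Finset.univ τ ⟨(0 : Fin 6), Finset.mem_univ _⟩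
  have h1 := allGE_sound τ Y hdd hss 5 q ([0, 1, 2, 3, 4, 5].erase q) (22 - ss q)
    (List.Nodup.erase q (by decide)) (List.Nodup.not_mem_erase (by decide))
    (fun r _ => hmin r (Finset.mem_univ r)) (allGE_start q)
  have h2 := h0 q
  have h3 : (22 : ℝ) ≤ (22 - ss q : ℕ) + ss q := by
    exact_mod_cast (le_tsub_add : 22 ≤ 22 - ss q + ss q)
  linarith

end Theta

end Pool.Agent.H64.NetSearch
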