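import Pool.Agent.H64.NetSearch.Lower

/-!
# A good mixed search strategy that may cross the bridge three times
-/

set_option autoImplicit false

open scoped NNReal ENNReal Topology
open MeasureTheory Filter

namespace Pool.Agent.H64.NetSearch

open Network

namespace Theta

/-- the legs of the network -/
def lt (b : Bool) : Leg theta := (ThetaArc.tail, b)
def lb (b : Bool) : Leg theta := (ThetaArc.bridge, b)
def lside (i : Fin 3) (b : Bool) : Leg theta := (ThetaArc.side i, b)

/-- First the tail and back, then the bridge and the three parallel arcs. -/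
def legs0 : List (Leg theta) :=
  [lt true, lt false, lb true, lside 0 true, lside 1 false, lside 2 true]

/-- First the bridge, two of the parallel arcs and the bridge again, then the tail and back, then
the bridge for the third time and the last parallel arc. -/
def legs (r : Fin 3) : List (Leg theta) :=
  [lb true, lside r true, lside (r + 1) false, lb false, lt true, lt false, lb true,
    lside (r + 2) true]

theorem fits0 : Fits (N := theta) ThetaNode.O legs0 :=
  ⟨rfl, rfl, rfl, rfl, rfl, rfl, trivial⟩

theorem fits (r : Fin 3) : Fits (N := theta) ThetaNode.O (legs r) :=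
  ⟨rfl, rfl, rfl, rfl, rfl, rfl, rfl, rfl, trivial⟩

noncomputable def T0 : Trajectory theta O := walkTraj (N := theta) ThetaNode.O legs0 fits0

noncomputable def T (r : Fin 3) : Trajectory theta O :=
  walkTraj (N := theta) ThetaNode.O (legs r) (fits r)

theorem len_lt (b : Bool) : (lt b).length = 1000 := rfl
theorem len_lb (b : Bool) : (lb b).length = 1 := rfl
theorem len_lside (i : Fin 3) (b : Bool) : (lside i b).length = 6 := rfl

theorem T0_tail (z : theta.Coord ThetaArc.tail) :
    T0.captureTime (loc (N := theta) ThetaArc.tail z) ≤ (1000 : ℝ≥0) :=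
  captureTime_walkTraj_le [] (lt true) [lt false, lb true, lside 0 true, lside 1 false, lside 2 true]
    fits0 z (by simp only [totalLength, len_lt]; norm_num)

theorem T0_bridge (z : theta.Coord ThetaArc.bridge) :
    T0.captureTime (loc (N := theta) ThetaArc.bridge z) ≤ (2001 : ℝ≥0) :=
  captureTime_walkTraj_le [lt true, lt false] (lb true) [lside 0 true, lside 1 false, lside 2 true]
    fits0 z (by simp only [totalLength, len_lt, len_lb]; norm_num)

theorem T0_side (i : Fin 3) (z : theta.Coord (ThetaArc.side i)) :
    T0.captureTime (loc (N := theta) (ThetaArc.side i) z) ≤ (2019 : ℝ≥0) := by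
  fin_cases i
  · exact captureTime_walkTraj_le [lt true, lt false, lb true] (lside 0 true)
      [lside 1 false, lside 2 true]
      fits0 z (by simp only [totalLength, len_lt, len_lb, len_lside]; norm_num)
  · exact captureTime_walkTraj_le [lt true, lt false, lb true, lside 0 true] (lside 1 false)
      [lside 2 true]
      fits0 z (by simp only [totalLength, len_lt, len_lb, len_lside]; norm_num)
  · exact captureTime_walkTraj_le [lt true, lt false, lb true, lside 0 true, lside 1 false]
      (lside 2 true) []
      fits0 z (by simp only [totalLength, len_lt, len_lb, len_lside]; norm_num)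

theorem T_tail (r : Fin 3) (z : theta.Coord ThetaArc.tail) :
    (T r).captureTime (loc (N := theta) ThetaArc.tail z) ≤ (1014 : ℝ≥0) :=
  captureTime_walkTraj_le [lb true, lside r true, lside (r + 1) false, lb false] (lt true)
    [lt false, lb true, lside (r + 2) true]
    (fits r) z (by simp only [totalLength, len_lt, len_lb, len_lside]; norm_num)

theorem T_bridge (r : Fin 3) (z : theta.Coord ThetaArc.bridge) :
    (T r).captureTime (loc (N := theta) ThetaArc.bridge z) ≤ (1 : ℝ≥0) :=
  captureTime_walkTraj_le [] (lb true)
    [lside r true, lside (r + 1) false, lb false, lt true, lt false, lb true, lside (r + 2) true]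
    (fits r) z (by simp only [totalLength, len_lb]; norm_num)

theorem T_side (r : Fin 3) (z : theta.Coord (ThetaArc.side r)) :
    (T r).captureTime (loc (N := theta) (ThetaArc.side r) z) ≤ (13 : ℝ≥0) :=
  captureTime_walkTraj_le [lb true] (lside r true)
    [lside (r + 1) false, lb false, lt true, lt false, lb true, lside (r + 2) true]
    (fits r) z (by simp only [totalLength, len_lb, len_lside]; norm_num)

theorem T_side1 (r : Fin 3) (z : theta.Coord (ThetaArc.side (r + 1))) :
    (T r).captureTime (loc (N := theta) (ThetaArc.side (r + 1)) z) ≤ (13 : ℝ≥0) :=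
  captureTime_walkTraj_le [lb true, lside r true] (lside (r + 1) false)
    [lb false, lt true, lt false, lb true, lside (r + 2) true]
    (fits r) z (by simp only [totalLength, len_lb, len_lside]; norm_num)

theorem T_side2 (r : Fin 3) (z : theta.Coord (ThetaArc.side (r + 2))) :
    (T r).captureTime (loc (N := theta) (ThetaArc.side (r + 2)) z) ≤ (2021 : ℝ≥0) :=
  captureTime_walkTraj_le
    [lb true, lside r true, lside (r + 1) false, lb false, lt true, lt false, lb true]
    (lside (r + 2) true) []
    (fits r) z (by simp only [totalLength, len_lt, len_lb, len_lside]; norm_num)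

/-- The weighted total capture time is at most `75798`, wherever the hider is. -/
theorem total_le (H : theta.Point) :
    18 * T0.captureTime H + 19 * ∑ r : Fin 3, (T r).captureTime H ≤ 75798 := by
  have htail : ∀ z : theta.Coord ThetaArc.tail,
      18 * T0.captureTime (loc (N := theta) ThetaArc.tail z) +
      19 * ∑ r : Fin 3, (T r).captureTime (loc (N := theta) ThetaArc.tail z) ≤ 75798 := by
    intro z
    calc _ ≤ 18 * ((1000 : ℝ≥0) : ℝ≥0∞) + 19 * ∑ _r : Fin 3, ((1014 : ℝ≥0) : ℝ≥0∞) := by
          gcongr with r
          · exact T0_tail z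
          · exact T_tail r z
      _ ≤ 75798 := by
          simp only [Finset.sum_const, Finset.card_univ, Fintype.card_fin, nsmul_eq_mul]
          norm_num
  have hbridge : ∀ z : theta.Coord ThetaArc.bridge,
      18 * T0.captureTime (loc (N := theta) ThetaArc.bridge z) +
      19 * ∑ r : Fin 3, (T r).captureTime (loc (N := theta) ThetaArc.bridge z) ≤ 75798 := by
    intro z
    calc _ ≤ 18 * ((2001 : ℝ≥0) : ℝ≥0∞) + 19 * ∑ _r : Fin 3, ((1 : ℝ≥0) : ℝ≥0∞) := by
          gcongr with r
          · exact T0_bridge z
          · exact T_bridge r z
      _ ≤ 75798 := by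
          simp only [Finset.sum_const, Finset.card_univ, Fintype.card_fin, nsmul_eq_mul]
          norm_num
  have hside : ∀ (i : Fin 3) (z : theta.Coord (ThetaArc.side i)),
      18 * T0.captureTime (loc (N := theta) (ThetaArc.side i) z) +
      19 * ∑ r : Fin 3, (T r).captureTime (loc (N := theta) (ThetaArc.side i) z) ≤ 75798 := by
    intro i z
    have hsum : ∑ r : Fin 3, (T r).captureTime (loc (N := theta) (ThetaArc.side i) z) ≤
        ((13 : ℝ≥0) : ℝ≥0∞) + ((13 : ℝ≥0) : ℝ≥0∞) + ((2021 : ℝ≥0) : ℝ≥0∞) := by
      have h3 : ∑ r : Fin 3, (T r).captureTime (loc (N := theta) (ThetaArc.side i) z) =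
          (T i).captureTime (loc (N := theta) (ThetaArc.side i) z) +
          (T (i + 2)).captureTime (loc (N := theta) (ThetaArc.side i) z) +
          (T (i + 1)).captureTime (loc (N := theta) (ThetaArc.side i) z) := by
        rw [Fin.sum_univ_three]
        fin_cases i
        · change _ + _ + _ = _ + (T 2).captureTime _ + (T 1).captureTime _
          simp only [Fin.zero_eta]
          ring
        · change _ + _ + _ = _ + (T 0).captureTime _ + (T 2).captureTime _
          simp only [Fin.mk_one]
          ring
        · change _ + _ + _ = _ + (T 1).captureTime _ + (T 0).captureTime _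
          simp only [Fin.reduceFinMk]
          ring
      rw [h3]
      have e2 : i + 2 + 1 = i := by fin_cases i <;> rfl
      have e1 : i + 1 + 2 = i := by fin_cases i <;> rfl
      have h2 : (T (i + 2)).captureTime (loc (N := theta) (ThetaArc.side i) z) ≤ (13 : ℝ≥0) := by
        have := T_side1 (i + 2)
        rw [e2] at this
        exact this z
      have h1 : (T (i + 1)).captureTime (loc (N := theta) (ThetaArc.side i) z) ≤ (2021 : ℝ≥0) := by
        have := T_side2 (i + 1)
        rw [e1] at this
        exact this z
      exact add_le_add (add_le_add (T_side i z) h2) h1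
    calc _ ≤ 18 * ((2019 : ℝ≥0) : ℝ≥0∞) +
            19 * (((13 : ℝ≥0) : ℝ≥0∞) + ((13 : ℝ≥0) : ℝ≥0∞) + ((2021 : ℝ≥0) : ℝ≥0∞)) := by
          gcongr
          exact T0_side i z
      _ ≤ 75798 := by norm_num
  obtain ⟨p, rfl⟩ := toPoint_surjective H
  match p with
  | .node .O =>
    have h := htail (theta.first ThetaArc.tail)
    rw [← nodePt_src (N := theta) ThetaArc.tail] at h
    exact h
  | .node .X =>
    have h := htail (theta.last ThetaArc.tail)
    rw [← nodePt_tgt (N := theta) ThetaArc.tail] at h
    exact h
  | .node .A =>
    have h := hbridge (theta.last ThetaArc.bridge)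
    rw [← nodePt_tgt (N := theta) ThetaArc.bridge] at h
    exact h
  | .node .B =>
    have h := hside 0 (theta.last (ThetaArc.side 0))
    rw [← nodePt_tgt (N := theta) (ThetaArc.side 0)] at h
    exact h
  | .pt .tail z => exact htail z
  | .pt .bridge z => exact hbridge z
  | .pt (.side i) z => exact hside i z

/-- The mixed strategy as a measure. -/
noncomputable def mixMeasure : Measure (Trajectory theta O) :=
  (75 : ℝ≥0∞)⁻¹ • ((18 : ℝ≥0∞) • Measure.dirac T0 + (19 : ℝ≥0∞) • ∑ r : Fin 3, Measure.dirac (T r))

instance : IsProbabilityMeasure mixMeasure := by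
  constructor
  simp only [mixMeasure, Measure.smul_apply, Measure.add_apply, Measure.finsetSum_apply,
    measure_univ, smul_eq_mul, Finset.sum_const, Finset.card_univ, Fintype.card_fin, nsmul_eq_mul]
  have h : (18 : ℝ≥0∞) * 1 + 19 * ((3 : ℕ) * 1) = 75 := by norm_num
  rw [h]
  exact ENNReal.inv_mul_cancel (by norm_num) (by norm_num)

/-- The mixed strategy. -/
noncomputable def mix : ProbabilityMeasure (Trajectory theta O) := ⟨mixMeasure, inferInstance⟩

theorem expectedCapture_mix (H : theta.Point) :
    75 * expectedCapture mix H ≤ 75798 := by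
  have h : expectedCapture mix H = (75 : ℝ≥0∞)⁻¹ *
      (18 * T0.captureTime H + 19 * ∑ r : Fin 3, (T r).captureTime H) := by
    change ∫⁻ S, S.captureTime H ∂mixMeasure = _
    simp only [mixMeasure, lintegral_smul_measure, lintegral_add_measure,
      lintegral_finsetSum_measure, smul_eq_mul]
    rw [lintegral_dirac' _ (Trajectory.measurable_captureTime H)]
    congr 3
    refine Finset.sum_congr rfl fun r _ => ?_
    rw [lintegral_dirac' _ (Trajectory.measurable_captureTime H)]
  rw [h, ← mul_assoc, ENNReal.mul_inv_cancel (by norm_num) (by norm_num), one_mul]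
  exact total_le H

theorem value_le : 75 * value theta O ≤ 75798 := by
  have h : value theta O ≤ ⨆ H, expectedCapture mix H := iInf_le _ mix
  have h2 : ⨆ H, expectedCapture mix H ≤ 75798 / 75 := by
    refine iSup_le fun H => ?_
    rw [ENNReal.le_div_iff_mul_le (by simp) (by simp), mul_comm]
    exact expectedCapture_mix H
  have h3 := h.trans h2
  rw [ENNReal.le_div_iff_mul_le (by simp) (by simp), mul_comm] at h3
  exact h3

theorem bad_pos (s : ProbabilityMeasure (Trajectory theta O)) (hs : IsOptimal s) :
    0 < (s : Measure (Trajectory theta O)) bad := by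
  by_contra hcon
  have h0 : (s : Measure (Trajectory theta O)) bad = 0 := by simpa using hcon
  have hae : ∀ᵐ S ∂(s : Measure (Trajectory theta O)), S ∉ bad := measure_eq_zero_iff_ae_notMem.1 h0
  have hle : ∀ H, expectedCapture s H ≤ value theta O := fun H => by
    have : expectedCapture s H ≤ ⨆ H, expectedCapture s H := le_iSup _ H
    rwa [hs] at this
  have h1 : (6064548 : ℝ≥0∞) ≤ 5934 * expectedCapture s X +
      11 * ∑ p : Fin 6, expectedCapture s (pnt p) := by
    calc (6064548 : ℝ≥0∞) = ∫⁻ _S, 6064548 ∂(s : Measure (Trajectory theta O)) := by simp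
      _ ≤ ∫⁻ S, (5934 * S.captureTime X + 11 * ∑ p : Fin 6, S.captureTime (pnt p))
            ∂(s : Measure (Trajectory theta O)) :=
          lintegral_mono_ae (hae.mono fun S hS => lower_bound hS)
      _ = _ := by
          rw [lintegral_add_left ((Trajectory.measurable_captureTime X).const_mul _),
            lintegral_const_mul _ (Trajectory.measurable_captureTime X), lintegral_const_mul,
            lintegral_finsetSum]
          · rfl
          · exact fun p _ => Trajectory.measurable_captureTime _
          · exact Finset.measurable_sum _ fun p _ => Trajectory.measurable_captureTime _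
  have h2 : 5934 * expectedCapture s X + 11 * ∑ p : Fin 6, expectedCapture s (pnt p) ≤
      6000 * value theta O := by
    calc _ ≤ 5934 * value theta O + 11 * ∑ _p : Fin 6, value theta O := by
          gcongr with p
          · exact hle X
          · exact hle (pnt p)
      _ = 6000 * value theta O := by
          simp only [Finset.sum_const, Finset.card_univ, Fintype.card_fin, nsmul_eq_mul]
          rw [← mul_assoc, ← add_mul]
          norm_num
  have h3 : 6000 * value theta O = 80 * (75 * value theta O) := by
    rw [← mul_assoc]; norm_num
  have h4 : (6064548 : ℝ≥0∞) ≤ 80 * 75798 :=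
    (h1.trans h2).trans (h3.le.trans (by gcongr; exact value_le))
  norm_num at h4

end Theta

end Pool.Agent.H64.NetSearch
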