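import Pool.Agent.H64.NetSearch.Exist

/-!
# Walks along arcs as search trajectories, and potential functions on networks
-/

set_option autoImplicit false

open scoped NNReal ENNReal Topology
open MeasureTheory Filter

namespace Pool.Agent.H64.NetSearch

variable {N : Network}

open Network

/-- A potential: a function on the points before glueing which is compatible with the glueing and
has slope at most one along the arcs. -/
structure Potential (N : Network) where
  f : N.Raw → ℝ
  along : ∀ (e : N.Arc) (x y : N.Coord e), |f (.pt e x) - f (.pt e y)| ≤ |(x : ℝ) - y|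
  src : ∀ e : N.Arc, f (.node (N.src e)) = f (.pt e (N.first e))
  tgt : ∀ e : N.Arc, f (.node (N.tgt e)) = f (.pt e (N.last e))

namespace Potential

variable (F : Potential N)

theorem abs_sub_le_of_joined {p q : N.Raw} {a : ℝ} (h : N.Joined p q a) :
    |F.f p - F.f q| ≤ a := by
  induction h with
  | refl p => simp
  | along e x y => exact F.along e x y
  | src e => rw [F.src e]; simp
  | tgt e => rw [F.tgt e]; simp
  | symm _ ih => rw [abs_sub_comm]; exact ih
  | trans _ _ ih1 ih2 => exact (abs_sub_le _ _ _).trans (add_le_add ih1 ih2)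

theorem abs_sub_le_pathDist (p q : N.Raw) : |F.f p - F.f q| ≤ N.pathDist p q :=
  le_pathDist fun _ h => F.abs_sub_le_of_joined h

/-- The potential as a function on the points of the network. -/
noncomputable def val (P : N.Point) : ℝ :=
  SeparationQuotient.lift F.f (fun p q h => by
    have h0 : dist p q = 0 := Metric.inseparable_iff.1 h
    have h1 := F.abs_sub_le_pathDist p q
    rw [← raw_dist_def, h0] at h1
    exact sub_eq_zero.1 (abs_nonpos_iff.1 h1)) P

theorem val_toPoint (p : N.Raw) : F.val (toPoint p) = F.f p := rfl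

theorem val_loc (e : N.Arc) (x : N.Coord e) : F.val (loc e x) = F.f (.pt e x) := rfl

theorem val_nodePt (v : N.Node) : F.val (nodePt v) = F.f (.node v) := rfl

theorem abs_sub_le_dist (P Q : N.Point) : |F.val P - F.val Q| ≤ dist P Q := by
  obtain ⟨p, rfl⟩ := toPoint_surjective P
  obtain ⟨q, rfl⟩ := toPoint_surjective Q
  exact F.abs_sub_le_pathDist p q

theorem continuous_val : Continuous F.val := by
  have : LipschitzWith 1 F.val := LipschitzWith.of_dist_le_mul fun P Q => by
    simpa [Real.dist_eq] using F.abs_sub_le_dist P Q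
  exact this.continuous

end Potential

/-- A leg of a walk: an arc with a direction (`true`: from `src` to `tgt`). -/
abbrev Leg (N : Network) : Type := N.Arc × Bool

namespace Leg

/-- starting node of a leg -/
def start (l : Leg N) : N.Node := if l.2 then N.src l.1 else N.tgt l.1

/-- final node of a leg -/
def finish (l : Leg N) : N.Node := if l.2 then N.tgt l.1 else N.src l.1

/-- length of a leg -/
def length (l : Leg N) : ℝ := N.len l.1

theorem length_pos (l : Leg N) : 0 < l.length := N.len_pos _

/-- position after time `t` on the leg -/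
noncomputable def posAt (l : Leg N) (t : ℝ) : N.Point :=
  loc l.1 (Set.projIcc 0 (N.len l.1) (N.len_pos l.1).le (if l.2 then t else N.len l.1 - t))

theorem dist_posAt_le (l : Leg N) (s t : ℝ) : dist (l.posAt s) (l.posAt t) ≤ |s - t| := by
  unfold posAt
  refine (dist_loc_le _ _ _).trans ?_
  refine (Set.abs_projIcc_sub_projIcc _).trans ?_
  rcases l with ⟨e, b⟩
  cases b
  · have h : (N.len e - s) - (N.len e - t) = t - s := by ring
    simp only [Bool.false_eq_true, if_false]
    rw [h, abs_sub_comm]
  · simp

theorem posAt_zero (l : Leg N) : l.posAt 0 = nodePt l.start := by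
  rcases l with ⟨e, b⟩
  cases b
  · simp only [posAt, start, Bool.false_eq_true, if_false, sub_zero]
    rw [nodePt_tgt, Set.projIcc_right]; rfl
  · simp only [posAt, start, if_true]
    rw [nodePt_src, Set.projIcc_left]; rfl

theorem posAt_length (l : Leg N) : l.posAt l.length = nodePt l.finish := by
  rcases l with ⟨e, b⟩
  cases b
  · simp only [posAt, finish, length, Bool.false_eq_true, if_false, sub_self]
    rw [nodePt_src, Set.projIcc_left]; rfl
  · simp only [posAt, finish, length, if_true]
    rw [nodePt_tgt, Set.projIcc_right]; rfl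

theorem exists_posAt_eq (l : Leg N) (z : N.Coord l.1) :
    ∃ t : ℝ, 0 ≤ t ∧ t ≤ l.length ∧ l.posAt t = loc l.1 z := by
  rcases l with ⟨e, b⟩
  cases b
  · refine ⟨N.len e - z, sub_nonneg.2 z.2.2, ?_, ?_⟩
    · simp only [length]; linarith [z.2.1]
    · simp only [posAt, Bool.false_eq_true, if_false, sub_sub_cancel]
      rw [Set.projIcc_val]
  · refine ⟨z, z.2.1, z.2.2, ?_⟩
    simp only [posAt, if_true]
    rw [Set.projIcc_val]

end Leg

/-- The walk that starts at the node `v`, follows the given legs at unit speed and then stays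
where it is. -/
noncomputable def walk : N.Node → List (Leg N) → ℝ → N.Point
  | v, [], _ => nodePt v
  | _, l :: ls, t => if t ≤ l.length then l.posAt t else walk l.finish ls (t - l.length)

/-- The legs fit together, starting from `v`. -/
def Fits : N.Node → List (Leg N) → Prop
  | _, [] => True
  | v, l :: ls => l.start = v ∧ Fits l.finish ls

theorem walk_zero {v : N.Node} {ls : List (Leg N)} (h : Fits v ls) : walk v ls 0 = nodePt v := by
  cases ls with
  | nil => rfl
  | cons l ls =>
    rw [walk, if_pos l.length_pos.le, l.posAt_zero, h.1]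

theorem walk_cons_add {v : N.Node} {l : Leg N} {ls : List (Leg N)} (h : Fits v (l :: ls)) {t : ℝ}
    (ht : 0 ≤ t) : walk v (l :: ls) (l.length + t) = walk l.finish ls t := by
  rcases ht.eq_or_lt with rfl | ht
  · rw [walk, if_pos (by simp), add_zero, l.posAt_length, walk_zero h.2]
  · rw [walk, if_neg (by linarith)]
    congr 1
    ring

theorem dist_walk_le : ∀ {v : N.Node} {ls : List (Leg N)}, Fits v ls → ∀ {s t : ℝ}, 0 ≤ s →
    s ≤ t → dist (walk v ls s) (walk v ls t) ≤ t - s := by
  intro v ls
  induction ls generalizing v with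
  | nil =>
    intro _ s t _ hst
    simp only [walk, dist_self]
    linarith
  | cons l ls ih =>
    intro h s t hs hst
    by_cases h1 : t ≤ l.length
    · rw [walk, walk, if_pos h1, if_pos (hst.trans h1)]
      refine (l.dist_posAt_le s t).trans ?_
      rw [abs_sub_comm, abs_of_nonneg (sub_nonneg.2 hst)]
    · push Not at h1
      obtain ⟨t', rfl⟩ : ∃ t', t = l.length + t' := ⟨t - l.length, by ring⟩
      have ht' : 0 ≤ t' := by linarith
      rw [walk_cons_add h ht']
      by_cases h2 : s ≤ l.length
      · rw [walk, if_pos h2]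
        have h3 : dist (l.posAt s) (nodePt l.finish) ≤ l.length - s := by
          rw [← l.posAt_length]
          refine (l.dist_posAt_le _ _).trans ?_
          rw [abs_sub_comm, abs_of_nonneg (sub_nonneg.2 h2)]
        have h4 : dist (nodePt l.finish) (walk l.finish ls t') ≤ t' - 0 := by
          have := ih h.2 (le_refl (0 : ℝ)) ht'
          rwa [walk_zero h.2] at this
        calc _ ≤ _ := dist_triangle _ (nodePt l.finish) _
          _ ≤ _ := by linarith
      · push Not at h2
        obtain ⟨s', rfl⟩ : ∃ s', s = l.length + s' := ⟨s - l.length, by ring⟩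
        have hs' : 0 ≤ s' := by linarith
        rw [walk_cons_add h hs']
        refine (ih h.2 hs' (by linarith)).trans ?_
        linarith

/-- The walk as a search trajectory. -/
noncomputable def walkTraj (v : N.Node) (ls : List (Leg N)) (h : Fits v ls) :
    Trajectory N (nodePt v) :=
  ⟨fun t => walk v ls t, walk_zero h, fun t t' => by
    rcases le_total (t : ℝ) t' with hle | hle
    · rw [abs_sub_comm, abs_of_nonneg (sub_nonneg.2 hle)]
      exact dist_walk_le h t.2 hle
    · rw [dist_comm, abs_of_nonneg (sub_nonneg.2 hle)]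
      exact dist_walk_le h t'.2 hle⟩

/-- Total length of a list of legs. -/
def totalLength : List (Leg N) → ℝ
  | [] => 0
  | l :: ls => l.length + totalLength ls

theorem exists_walk_eq : ∀ {v : N.Node} (ls₁ : List (Leg N)) (l : Leg N) (ls₂ : List (Leg N)),
    Fits v (ls₁ ++ l :: ls₂) → ∀ z : N.Coord l.1,
      ∃ t : ℝ, 0 ≤ t ∧ t ≤ totalLength ls₁ + l.length ∧
        walk v (ls₁ ++ l :: ls₂) t = loc l.1 z := by
  intro v ls₁ l ls₂
  induction ls₁ generalizing v with
  | nil =>
    intro h z
    obtain ⟨t, ht0, ht1, ht2⟩ := l.exists_posAt_eq z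
    refine ⟨t, ht0, by simpa [totalLength] using ht1, ?_⟩
    rw [List.nil_append, walk, if_pos ht1, ht2]
  | cons m ls₁ ih =>
    intro h z
    obtain ⟨t, ht0, ht1, ht2⟩ := ih h.2 z
    refine ⟨m.length + t, by linarith [m.length_pos], ?_, ?_⟩
    · simp only [totalLength]; linarith
    · have h' : Fits v (m :: (ls₁ ++ l :: ls₂)) := h
      rw [List.cons_append, walk_cons_add h' ht0, ht2]

theorem captureTime_walkTraj_le {v : N.Node} (ls₁ : List (Leg N)) (l : Leg N)
    (ls₂ : List (Leg N)) (h : Fits v (ls₁ ++ l :: ls₂)) (z : N.Coord l.1) {c : ℝ≥0}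
    (hc : totalLength ls₁ + l.length ≤ c) :
    (walkTraj v _ h).captureTime (loc l.1 z) ≤ c := by
  obtain ⟨t, ht0, ht1, ht2⟩ := exists_walk_eq ls₁ l ls₂ h z
  have hpos : (walkTraj v _ h).pos ⟨t, ht0⟩ = loc l.1 z := ht2
  have hle : (⟨t, ht0⟩ : ℝ≥0) ≤ c := NNReal.coe_le_coe.1 (ht1.trans hc)
  exact (Trajectory.captureTime_le hpos).trans (ENNReal.coe_le_coe.2 hle)

end Pool.Agent.H64.NetSearch
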